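import Mathlib
import Pool.Agent.Hhelper32.Final

set_option autoImplicit false

namespace Pool.Agent.Results.MP_83fdb4_an.OmitsValue

open Metric Set

/-- There is a holomorphic function `f` on the open unit disc whose range is the whole plane such that for every
bounded univalent `g` on the disc the function `f + g` omits some complex value on the disc. -/
theorem result :
    ∃ f : ℂ → ℂ, DifferentiableOn ℂ f (ball (0 : ℂ) 1) ∧
      (∀ w : ℂ, ∃ z ∈ ball (0 : ℂ) 1, f z = w) ∧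
      ∀ g : ℂ → ℂ, DifferentiableOn ℂ g (ball (0 : ℂ) 1) → InjOn g (ball (0 : ℂ) 1) →
        (∃ M : ℝ, ∀ z ∈ ball (0 : ℂ) 1, ‖g z‖ ≤ M) →
        ∃ w : ℂ, ∀ z ∈ ball (0 : ℂ) 1, f z + g z ≠ w := by
  obtain ⟨f, hf, hfu, hfg⟩ := Pool.Agent.Hhelper32.main_theorem
  refine ⟨f, hf.differentiableOn, ?_, ?_⟩
  · intro w
    have h : w ∈ f '' ball (0 : ℂ) 1 := by rw [hfu]; exact mem_univ w
    exact h
  · intro g hg hgi hgb
    obtain ⟨M, hM⟩ := hgb
    by_contra hcon
    push Not at hcon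
    refine hfg g (hg.analyticOnNhd isOpen_ball) hgi ?_ ?_
    · rw [isBounded_iff_forall_norm_le]
      refine ⟨M, ?_⟩
      rintro _ ⟨z, hz, rfl⟩
      exact hM z hz
    · rw [eq_univ_iff_forall]
      intro w
      obtain ⟨z, hz, hzw⟩ := hcon w
      exact ⟨z, hz, hzw⟩

end Pool.Agent.Results.MP_83fdb4_an.OmitsValue
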